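import Pool.Agent.Q83.BL.Stm

set_option autoImplicit false

/-! Job TF of project BL (helper83). -/

namespace Pool.Agent.Q153.BL

open MeasureTheory Complex Q83.BL
open scoped ENNReal

lemma shift_congr {l : ℕ} (m n : X l) {f g : X l → ℂ} (h : f =ᵐ[volume] g) :
    shift m n f =ᵐ[volume] shift m n g := by
  have h1 : (fun x => f (x - m)) =ᵐ[volume] fun x => g (x - m) :=
    (measurePreserving_sub_right volume m).quasiMeasurePreserving.ae_eq_comp h
  filter_upwards [h1] with x hx
  simp only [shift]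
  rw [hx]

lemma phase_add {l : ℕ} (n n' m x : X l) :
    exp (2 * Real.pi * I * ((∑ i, n i * x i : ℝ) : ℂ)) *
      exp (2 * Real.pi * I * ((∑ i, n' i * (x - m) i : ℝ) : ℂ)) =
    exp (-(2 * Real.pi * I * ((∑ i, n' i * m i : ℝ) : ℂ))) *
      exp (2 * Real.pi * I * ((∑ i, (n + n') i * x i : ℝ) : ℂ)) := by
  rw [← Complex.exp_add, ← Complex.exp_add]
  congr 1
  have h : (∑ i, n i * x i) + (∑ i, n' i * (x - m) i) =
      -(∑ i, n' i * m i) + ∑ i, (n + n') i * x i := by
    rw [← Finset.sum_add_distrib, ← Finset.sum_neg_distrib, ← Finset.sum_add_distrib]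
    refine Finset.sum_congr rfl fun i _ => ?_
    simp only [PiLp.sub_apply, PiLp.add_apply]
    ring
  have h2 : ((∑ i, n i * x i : ℝ) : ℂ) + ((∑ i, n' i * (x - m) i : ℝ) : ℂ) =
      -((∑ i, n' i * m i : ℝ) : ℂ) + ((∑ i, (n + n') i * x i : ℝ) : ℂ) := by
    exact_mod_cast h
  linear_combination (2 * Real.pi * I) * h2

theorem t_TF : S_TF := by
  intro l
  refine ⟨?_, ?_, ?_, ?_, ?_⟩
  · intro m n f h
    apply Lp.ext
    have h1 := coe_tf m n (f + h)
    have h2 := coe_tf m n f
    have h3 := coe_tf m n h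
    have h4 := shift_congr m n (Lp.coeFn_add f h)
    have h5 := Lp.coeFn_add (tf m n f) (tf m n h)
    filter_upwards [h1, h2, h3, h4, h5] with x e1 e2 e3 e4 e5
    rw [e1, e4, e5, Pi.add_apply, e2, e3]
    simp only [shift, Pi.add_apply]
    ring
  · intro m n c f
    apply Lp.ext
    have h1 := coe_tf m n (c • f)
    have h2 := coe_tf m n f
    have h4 := shift_congr m n (Lp.coeFn_smul c f)
    have h5 := Lp.coeFn_smul c (tf m n f)
    filter_upwards [h1, h2, h4, h5] with x e1 e2 e4 e5
    rw [e1, e4, e5, Pi.smul_apply, e2]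
    simp only [shift, Pi.smul_apply, smul_eq_mul]
    ring
  · intro m n f
    rw [Lp.norm_def, Lp.norm_def]
    congr 1
    have h1 := eLpNorm_congr_ae (p := 2) (coe_tf m n f)
    rw [h1]
    have h2 : eLpNorm (shift m n f) 2 volume = eLpNorm (fun x => f (x - m)) 2 volume := by
      apply eLpNorm_congr_norm_ae
      filter_upwards with x
      rw [shift, norm_mul, norm_phase, one_mul]
    rw [h2]
    exact eLpNorm_comp_measurePreserving (Lp.aestronglyMeasurable f)
      (measurePreserving_sub_right volume m)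
  · intro m n m' n' f
    apply Lp.ext
    have h1 := coe_tf m n (tf m' n' f)
    have h2 := shift_congr m n (coe_tf m' n' f)
    have h3 := Lp.coeFn_smul (exp (-(2 * Real.pi * I * ((∑ i, n' i * m i : ℝ) : ℂ))))
      (tf (m + m') (n + n') f)
    have h4 := coe_tf (m + m') (n + n') f
    filter_upwards [h1, h2, h3, h4] with x e1 e2 e3 e4
    rw [e1, e2, e3, Pi.smul_apply, e4, smul_eq_mul]
    simp only [shift]
    rw [← mul_assoc, ← mul_assoc, phase_add, sub_sub]
  · intro f
    apply Lp.ext
    filter_upwards [coe_tf 0 0 f] with x e1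
    rw [e1]
    simp [shift]

end Pool.Agent.Q153.BL
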